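import Pool.Agent.Lib.MFI.Apx
import Pool.Agent.Lib.CX.Defs

/-! The index relation `CX.IsInd` as an instance of the abstract index. -/

noncomputable section

open Matrix Function BCK Filter Topology BCO

namespace Pool.Agent.Lib.MFI

open BCH CX

variable {G : Type} [Group G] {E F H : Type} [NormedAddCommGroup E] [NormedSpace ℝ E]
  [NormedAddCommGroup F] [NormedSpace ℝ F] [NormedAddCommGroup H] [NormedSpace ℝ H]

theorem isClosed_KK : IsClosed (KK G E : Set (V G E →L[ℝ] V G E)) :=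
  Submodule.isClosed_topologicalClosure _

theorem tw_mem_KK (g : G) {T : E →L[ℝ] E} (hT : IsCompactOperator T) : tw g T ∈ KK G E :=
  Submodule.le_topologicalClosure _ (Submodule.subset_span ⟨g, T, hT, rfl⟩)

theorem KK_map {W : Type*} [AddCommGroup W] [Module ℝ W] [TopologicalSpace W]
    (φ : (V G E →L[ℝ] V G E) →L[ℝ] W) (S : Submodule ℝ W) (hS : IsClosed (S : Set W))
    (h : ∀ g (T : E →L[ℝ] E), IsCompactOperator T → φ (tw g T) ∈ S) {A : V G E →L[ℝ] V G E}
    (hA : A ∈ KK G E) : φ A ∈ S := by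
  have : KK G E ≤ S.comap φ.toLinearMap :=
    Submodule.topologicalClosure_minimal _
      (Submodule.span_le.2 (by rintro _ ⟨g, T, hT, rfl⟩; exact h g T hT))
      (hS.preimage φ.continuous)
  exact this hA

theorem KK_le_RR {A : V G E →L[ℝ] V G E} (hA : A ∈ KK G E) : A ∈ RR G E E :=
  KK_map (ContinuousLinearMap.id ℝ _) (RR G E E) isClosed_RR (fun _ _ _ => tw_mem _ _) hA

/-- the ideal property, in rectangular form -/
theorem sand_mem_KK {a : V G E →L[ℝ] V G F} {k : V G E →L[ℝ] V G E} {b : V G F →L[ℝ] V G E}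
    (ha : a ∈ RR G E F) (hk : k ∈ KK G E) (hb : b ∈ RR G F E) : a ∘L k ∘L b ∈ KK G F := by
  refine RR_map ((ContinuousLinearMap.compL ℝ (V G F) (V G E) (V G F)).flip (k ∘L b)) (KK G F)
    isClosed_KK (fun g S => ?_) ha
  refine RR_map ((ContinuousLinearMap.compL ℝ (V G F) (V G E) (V G F) (tw g S)).comp
    (ContinuousLinearMap.compL ℝ (V G F) (V G E) (V G E) k)) (KK G F) isClosed_KK
    (fun h T => ?_) hb
  refine KK_map ((ContinuousLinearMap.compL ℝ (V G F) (V G E) (V G F) (tw g S)).comp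
    ((ContinuousLinearMap.compL ℝ (V G F) (V G E) (V G E)).flip (tw h T))) (KK G F) isClosed_KK
    (fun l K hK => ?_) hk
  change (tw g S).comp ((tw l K).comp (tw h T)) ∈ _
  rw [tw_comp, tw_comp]
  exact tw_mem_KK _ ((hK.comp_clm T).clm_comp S)

theorem amp_id : amp G (ContinuousLinearMap.id ℝ E) = ContinuousLinearMap.id ℝ _ :=
  op_ext fun _ _ => rfl

theorem id_mem_RR : ContinuousLinearMap.id ℝ (V G E) ∈ RR G E E := amp_id (G := G) (E := E) ▸ amp_mem _

theorem mul_mem_KK {a k : V G E →L[ℝ] V G E} (ha : a ∈ RA G E) (hk : k ∈ KK G E) :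
    a * k ∈ KK G E := sand_mem_KK ha hk id_mem_RR

theorem KK_mul_mem {a k : V G E →L[ℝ] V G E} (hk : k ∈ KK G E) (ha : a ∈ RA G E) :
    k * a ∈ KK G E := sand_mem_KK id_mem_RR hk ha

variable (G) in
/-- transport of an operator along two maps -/
def sand (S : E →L[ℝ] F) (T : F →L[ℝ] E) (a : RA G E) : RA G F :=
  ⟨amp G S ∘L a.1 ∘L amp G T, comp_mem (amp_mem S) (comp_mem a.2 (amp_mem T))⟩

@[simp] theorem sand_apply (S : E →L[ℝ] F) (T : F →L[ℝ] E) (a : RA G E) (ξ : V G F) (x : G) :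
    (sand G S T a).1 ξ x = S (a.1 (amp G T ξ) x) := rfl

theorem sand_mul (S S' : E →L[ℝ] F) (T T' : F →L[ℝ] E) (a b : RA G E) :
    sand G S T a * sand G S' T' b = sand G S T' (a * ⟨amp G (T ∘L S'), amp_mem _⟩ * b) := rfl

theorem sand_sand (S : E →L[ℝ] F) (T : F →L[ℝ] E) (S' : F →L[ℝ] H) (T' : H →L[ℝ] F) (a : RA G E) :
    sand G S' T' (sand G S T a) = sand G (S' ∘L S) (T ∘L T') a := rfl

theorem sand_id (a : RA G E) : sand G (.id ℝ E) (.id ℝ E) a = a := by
  ext ξ x; rfl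

theorem amp_id' : (⟨amp G (ContinuousLinearMap.id ℝ E), amp_mem _⟩ : RA G E) = 1 := by
  ext ξ x; rfl

theorem sand_add (S : E →L[ℝ] F) (T : F →L[ℝ] E) (a b : RA G E) :
    sand G S T (a + b) = sand G S T a + sand G S T b := by
  ext ξ x; simp

theorem sand_zero (S : E →L[ℝ] F) (T : F →L[ℝ] E) : sand G S T 0 = 0 := by
  ext ξ x; simp

theorem sand_zero_left (T : F →L[ℝ] E) (a : RA G E) : sand G 0 T a = 0 := by
  ext ξ x; simp

theorem sand_zero_right (S : E →L[ℝ] F) (a : RA G E) : sand G S 0 a = 0 := by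
  have : ∀ ξ : V G F, amp G (0 : F →L[ℝ] E) ξ = 0 := fun ξ => by ext x; simp
  ext ξ x; simp [this]

variable (G) in
/-- `sand` as an additive map -/
def sandA (S : E →L[ℝ] F) (T : F →L[ℝ] E) : RA G E →+ RA G F :=
  ⟨⟨sand G S T, sand_zero S T⟩, sand_add S T⟩

variable (G) in
/-- a corner embedding -/
def corner (i : E →L[ℝ] H) (p : H →L[ℝ] E) (h : p ∘L i = .id ℝ E) : RA G E →ₙ+* RA G H where
  toFun := sand G i p
  map_mul' a b := by rw [sand_mul, h, amp_id', mul_one]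
  map_zero' := sand_zero _ _
  map_add' := sand_add _ _

variable (G E) in
/-- the ideal `KK` of `RA` -/
def KI : TwoSidedIdeal (RA G E) :=
  .mk' {x | x.1 ∈ KK G E} (KK G E).zero_mem (fun ha hb => (KK G E).add_mem ha hb)
    (fun ha => (KK G E).neg_mem ha) (fun {x _} hy => mul_mem_KK x.2 hy)
    (fun {_ y} hx => KK_mul_mem hx y.2)

theorem mem_KI {x : RA G E} : x ∈ KI G E ↔ x.1 ∈ KK G E := TwoSidedIdeal.mem_mk' _ _ _ _ _ _ _

theorem sand_mem_KI (S : E →L[ℝ] F) (T : F →L[ℝ] E) {a : RA G E} (ha : a ∈ KI G E) :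
    sand G S T a ∈ KI G F := mem_KI.2 (sand_mem_KK (amp_mem S) (mem_KI.1 ha) (amp_mem T))

variable (G) in
/-- the context of `RA G H` over the reduced group algebra -/
def cx (j : ℝ →L[ℝ] H) (q : H →L[ℝ] ℝ) (h : q ∘L j = .id ℝ ℝ) : Ctx (RA G H) (Cr G) where
  io := corner G j q h
  J := KI G H
  inj a b hab := by
    have := congrArg (sand G q j) hab
    change sand G q j (sand G j q a) = sand G q j (sand G j q b) at this
    rwa [sand_sand, sand_sand, h, sand_id, sand_id] at this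
  full a := ⟨sand G q j a, rfl⟩
  one_mem := mem_KI.2 (by
    have : (corner G j q h 1).1 = tw 1 (j ∘L q) := op_ext fun _ _ => by
      change j (q _) = j (q _); simp
    rw [this]
    exact tw_mem_KK _ (((isCompactOperator_id (E := ℝ)).comp_clm q).clm_comp j))

/-- a ring element as a `1 × 1` matrix -/
def sc {L : Type} (a : L) : Matrix Unit Unit L := of fun _ _ => a

theorem sc_mul {L : Type} [Ring L] (a b : L) : sc a * sc b = sc (a * b) := by
  ext; simp [sc, Matrix.mul_apply]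

theorem sc_sub {L : Type} [Ring L] (a b : L) : sc a - sc b = sc (a - b) := rfl

theorem ent_sc {L : Type} {S : Set L} {a : L} : Ent S (sc a) ↔ a ∈ S :=
  ⟨fun h => h () (), fun h _ _ => h⟩

section Bridge

variable (i : E →L[ℝ] H) (p : H →L[ℝ] E) (j : ℝ →L[ℝ] H) (q : H →L[ℝ] ℝ) {r : ℕ}

/-- the maps from `E ⊕ ℝ^r` to `H` -/
def al : Unit ⊕ Fin r → (E × (Fin r → ℝ)) →L[ℝ] H
  | .inl _ => i ∘L .fst ℝ E _
  | .inr a => j ∘L (.proj a ∘L .snd ℝ E _)

/-- the maps from `H` to `E ⊕ ℝ^r` -/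
def be : Unit ⊕ Fin r → H →L[ℝ] (E × (Fin r → ℝ))
  | .inl _ => .inl ℝ E _ ∘L p
  | .inr a => (.inr ℝ E _ ∘L .single ℝ (fun _ => ℝ) a) ∘L q

variable (G) in
/-- the matrix of an operator on `E ⊕ ℝ^r` -/
def toM (x : RA G (E × (Fin r → ℝ))) : Matrix (Unit ⊕ Fin r) (Unit ⊕ Fin r) (RA G H) :=
  of fun a b => sand G (al i j a) (be p q b) x

variable (G) in
/-- the operator of a matrix -/
def ofM (U : Matrix (Unit ⊕ Fin r) (Unit ⊕ Fin r) (RA G H)) : RA G (E × (Fin r → ℝ)) :=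
  ∑ a, ∑ b, sand G (be p q a) (al i j b) (U a b)

variable {i p j q} (hi : p ∘L i = .id ℝ E) (hj : q ∘L j = .id ℝ ℝ)

include hi hj in
theorem sum_be_al : ∑ a : Unit ⊕ Fin r, (⟨amp G (be p q a ∘L al i j a), amp_mem _⟩ : RA G _) = 1 := by
  have h1 : ∀ v, p (i v) = v := fun v => congr($hi v)
  have h2 : ∀ v, q (j v) = v := fun v => congr($hj v)
  refine Subtype.ext (op_ext fun ξ x => ?_)
  rw [AddSubmonoidClass.coe_finsetSum, sum_apply']
  simp only [Fintype.sum_sum_type, amp_apply, al, be]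
  ext a <;> simp [h1, h2, Prod.fst_sum, Prod.snd_sum, Pi.single_apply]

include hi hj in
theorem toM_mul (x y : RA G (E × (Fin r → ℝ))) :
    toM G i p j q x * toM G i p j q y = toM G i p j q (x * y) := by
  refine Matrix.ext fun a b => ?_
  simp only [toM, Matrix.mul_apply, of_apply, sand_mul]
  change ∑ c : Unit ⊕ Fin r, sandA G (al i j a) (be p q b) _ = sandA G (al i j a) (be p q b) _
  rw [← map_sum, ← Finset.sum_mul, ← Finset.mul_sum, sum_be_al hi hj, mul_one]

include hi hj in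
theorem ofM_toM (x : RA G (E × (Fin r → ℝ))) : ofM G i p j q (toM G i p j q x) = x := by
  have : ∀ a b : Unit ⊕ Fin r, sand G (be p q a) (al i j b) (toM G i p j q x a b) =
      ⟨amp G (be p q a ∘L al i j a), amp_mem _⟩ * x *
        ⟨amp G (be p q b ∘L al i j b), amp_mem _⟩ := fun _ _ => rfl
  simp only [ofM, this, ← Finset.mul_sum, ← Finset.sum_mul, sum_be_al hi hj, mul_one, one_mul]

theorem blk_mem (a : RA G E) (m : Matrix (Fin r) (Fin r) (Cr G)) :
    blk a.1 m ∈ RA G (E × (Fin r → ℝ)) :=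
  add_mem (sand G _ _ a).2 (sum_mem fun k _ => sum_mem fun l _ => (sand G _ _ (m k l)).2)

theorem blk_eq (a : RA G E) (m : Matrix (Fin r) (Fin r) (Cr G)) :
    (⟨blk a.1 m, blk_mem a m⟩ : RA G _) = sand G (.inl ℝ E _) (.fst ℝ E _) a + ∑ k, ∑ l,
      sand G (.inr ℝ E _ ∘L .single ℝ (fun _ => ℝ) k) (.proj l ∘L .snd ℝ E _) (m k l) := by
  refine Subtype.ext ?_
  simp only [AddMemClass.coe_add, AddSubmonoidClass.coe_finsetSum]
  rfl

theorem toM_blk (a : RA G E) (m : Matrix (Fin r) (Fin r) (Cr G)) :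
    toM G i p j q ⟨blk a.1 m, blk_mem a m⟩ =
      fromBlocks (sc (corner G i p hi a)) 0 0 (m.map (cx G j q hj).io) := by
  refine Matrix.ext fun a b => ?_
  rw [blk_eq]
  change sandA G (al i j a) (be p q b) _ = _
  simp only [map_add, map_sum]
  simp only [sandA, AddMonoidHom.coe_mk, ZeroHom.coe_mk, sand_sand]
  have z1 : ∀ c : Fin r, ContinuousLinearMap.fst ℝ E (Fin r → ℝ) ∘L be p q (.inr c) = 0 :=
    fun c => by ext; simp [be]
  have z2 : ∀ c : Fin r, al i j (.inr c) ∘L ContinuousLinearMap.inl ℝ E (Fin r → ℝ) = 0 :=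
    fun c => by ext; simp [al]
  have z3 : ∀ (u : Unit) (l : Fin r), (ContinuousLinearMap.proj l ∘L
      ContinuousLinearMap.snd ℝ E (Fin r → ℝ)) ∘L be p q (.inl u) = 0 :=
    fun u l => by ext; simp [be]
  have z4 : ∀ (u : Unit) (l : Fin r), al i j (.inl u) ∘L (ContinuousLinearMap.inr ℝ E (Fin r → ℝ) ∘L
      .single ℝ (fun _ => ℝ) l) = 0 := fun u l => by ext; simp [al]
  have z5 : ∀ c l : Fin r, (ContinuousLinearMap.proj l ∘L
      ContinuousLinearMap.snd ℝ E (Fin r → ℝ)) ∘L be p q (.inr c) = if l = c then q else 0 :=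
    fun c l => by ext; split_ifs with h <;> simp [be, h]
  have z6 : ∀ c l : Fin r, al i j (.inr c) ∘L (ContinuousLinearMap.inr ℝ E (Fin r → ℝ) ∘L
      .single ℝ (fun _ => ℝ) l) = if l = c then j else 0 :=
    fun c l => by ext; split_ifs with h <;> simp [al, h, Ne.symm]
  rcases a with a | a <;> rcases b with b | b
  · simp only [z4, sand_zero_left, Finset.sum_const_zero, add_zero]; rfl
  · simp only [z1, z4, sand_zero_left, sand_zero_right, Finset.sum_const_zero, add_zero]; rfl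
  · simp only [z2, z3, sand_zero_left, sand_zero_right, Finset.sum_const_zero, add_zero]; rfl
  · simp only [z2, z5, z6, sand_zero_left, zero_add]
    rw [Finset.sum_eq_single a (fun k _ hk => by simp [hk, sand_zero_left]) (by simp),
      Finset.sum_eq_single b (fun k _ hk => by simp [hk, sand_zero_right]) (by simp)]
    simp only [if_true]; rfl

include hi hj in
theorem ofM_mul (U W : Matrix (Unit ⊕ Fin r) (Unit ⊕ Fin r) (RA G H)) :
    ofM G i p j q U * ofM G i p j q W = ofM G i p j q (U * toM G i p j q 1 * W) := by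
  have : ∀ a b c d : Unit ⊕ Fin r, sand G (be p q a) (al i j b) (U a b) *
      sand G (be p q c) (al i j d) (W c d) =
      sandA G (be p q a) (al i j d) (U a b * toM G i p j q 1 b c * W c d) := fun _ _ _ _ => rfl
  simp only [ofM, Finset.sum_mul]
  refine Finset.sum_congr rfl fun a _ => ?_
  simp only [Finset.mul_sum, this, Matrix.mul_apply, Finset.sum_mul]
  change _ = ∑ d, sandA G (be p q a) (al i j d) _
  simp only [map_sum]
  rw [Finset.sum_comm]
  conv_rhs => rw [Finset.sum_comm]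
  refine Finset.sum_congr rfl fun c _ => ?_
  rw [Finset.sum_comm]

/-- the bridge -/
theorem isInd_iff (e P : RA G E) (he : e * e = e) (hP : P * P = P) (z : K0 (Cr G)) :
    IsInd e.1 P.1 z ↔ IsIdx (cx G j q hj) (sc (corner G i p hi e)) (sc (corner G i p hi P))
      (sc (corner G i p hi (P * e))) z := by
  constructor
  · rintro ⟨r, m, m', hm, hm', x, hx, y, hy, h1, h2, h3, rfl⟩
    refine ⟨Fin r, Fin r, inferInstance, inferInstance, m, m', toM G i p j q ⟨x, hx⟩,
      toM G i p j q ⟨y, hy⟩, hm, hm', ?_, ?_, fun _ _ => ?_, rfl⟩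
    · rw [toM_mul hi hj, ← toM_blk hi hj]; congr 1; exact Subtype.ext h2
    · rw [toM_mul hi hj, ← toM_blk hi hj]; congr 1; exact Subtype.ext h1
    · have h4 := congrFun (congrFun (toM_blk hi hj (P * e) (0 : Matrix (Fin r) (Fin r) (Cr G)))
        (.inl ())) (.inl ())
      have h5 : (⟨x, hx⟩ - ⟨_, blk_mem (P * e) 0⟩ : RA G _) ∈ KI G _ := mem_KI.2 h3
      have h6 := sand_mem_KI (al i j (.inl ())) (be p q (.inl ())) h5
      change sandA G _ _ _ ∈ _ at h6
      rw [map_sub] at h6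
      change toM G i p j q _ (.inl ()) (.inl ()) - toM G i p j q _ (.inl ()) (.inl ()) ∈ _ at h6
      rw [h4] at h6
      exact h6
  · intro h
    have i1 : sc (corner G i p hi e) * sc (corner G i p hi e) = sc (corner G i p hi e) := by
      rw [sc_mul, ← map_mul, he]
    have i2 : sc (corner G i p hi P) * sc (corner G i p hi P) = sc (corner G i p hi P) := by
      rw [sc_mul, ← map_mul, hP]
    obtain ⟨r, m, m', U, W, hm, hm', h1, h2, h3, h4, h5, rfl⟩ := h.normal i1 i2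
    rw [← toM_blk hi hj] at h1 h2 h3 h4
    have a1 : U * toM G i p j q 1 = U := by
      rw [← h3, Matrix.mul_assoc, toM_mul hi hj, mul_one]
    have a2 : toM G i p j q 1 * U = U := by
      rw [← h4, ← Matrix.mul_assoc, toM_mul hi hj, one_mul]
    refine ⟨r, m, m', hm, hm', (ofM G i p j q U).1, (ofM G i p j q U).2, (ofM G i p j q W).1,
      (ofM G i p j q W).2, ?_, ?_, ?_, rfl⟩
    · have := ofM_mul hi hj U W
      rw [a1, h2, ofM_toM hi hj] at this
      exact congrArg Subtype.val this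
    · have := ofM_mul hi hj W U
      rw [Matrix.mul_assoc, a2, h1, ofM_toM hi hj] at this
      exact congrArg Subtype.val this
    · have e1 : sc (corner G i p hi P) * sc (corner G i p hi (P * e)) * sc (corner G i p hi e) =
          sc (corner G i p hi (P * e)) := by
        rw [sc_mul, sc_mul, ← map_mul, ← map_mul, ← mul_assoc, hP, mul_assoc, he]
      have e2 := toM_blk hi hj (P * e) (0 : Matrix (Fin r) (Fin r) (Cr G))
      rw [Matrix.map_zero _ (map_zero _)] at e2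
      rw [e1, ← e2] at h5
      have : ofM G i p j q U - ⟨_, blk_mem (P * e) 0⟩ ∈ KI G (E × (Fin r → ℝ)) := by
        rw [← ofM_toM hi hj ⟨_, blk_mem (P * e) 0⟩]
        simp only [ofM, ← Finset.sum_sub_distrib]
        refine sum_mem fun a _ => sum_mem fun b _ => ?_
        have := sand_mem_KI (be p q a) (al i j b) (h5 a b)
        change sandA G _ _ _ ∈ _ at this
        rw [Matrix.sub_apply, map_sub] at this
        exact this
      exact mem_KI.1 this

end Bridge

instance [CompleteSpace E] : CompleteSpace (RA G E) := isClosed_RA.completeSpace_coe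

theorem approx_of' {H : Type} [NormedAddCommGroup H] [InnerProductSpace ℝ H] [CompleteSpace H]
    {L A : Type} [NormedRing L] [NormedAlgebra ℝ L] [Ring A] {C : Ctx L A}
    (θ : (H →L[ℝ] H) →ₐ[ℝ] L) (hθ : Continuous θ) (j : ℝ →L[ℝ] H)
    (q : H →L[ℝ] ℝ) (hq : ∀ t, q (j t) = t) (hio : C.io 1 = θ (j ∘L q))
    (hJ : ∀ N : Submodule ℝ L, IsClosed (N : Set L) → (∀ (T : H →L[ℝ] H) (c : L),
      IsCompactOperator T → (∀ S, Commute c (θ S)) → θ T * c ∈ N) → ∀ a ∈ C.J, a ∈ N) :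
    Approx C :=
  approx_of θ hθ j q hq hio (hJ _ (Submodule.isClosed_topologicalClosure _) fun T c hT hc =>
    Submodule.le_topologicalClosure _ (Submodule.subset_span ⟨T, c, hT, hc, rfl⟩))

theorem approx_cx {H : Type} [NormedAddCommGroup H] [InnerProductSpace ℝ H] [CompleteSpace H]
    (j : ℝ →L[ℝ] H) (q : H →L[ℝ] ℝ) (h : q ∘L j = .id ℝ ℝ) :
    Approx (L := RA G H) (A := Cr G) (cx G j q h) := by
  refine approx_of' ((ampA G).codRestrict (RA G H) fun T => amp_mem T)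
    (continuous_amp.subtype_mk _) j q (fun t => congr($h t)) rfl fun N hN h a ha => ?_
  have hc : IsClosed ((N.map (RA G H).val.toLinearMap : Submodule ℝ _) :
      Set (V G H →L[ℝ] V G H)) :=
    isClosed_RA.isClosedEmbedding_subtypeVal.isClosedMap _ hN
  obtain ⟨b, hb, e⟩ := KK_map (ContinuousLinearMap.id ℝ _) _ hc (fun g T hT =>
    ⟨_, h T ⟨tw g 1, tw_mem g 1⟩ hT fun S => Subtype.ext (op_ext fun _ _ => rfl),
      op_ext fun _ _ => rfl⟩) (mem_KI.1 ha)
  rwa [show a = b from Subtype.ext e.symm]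

section Final

variable {E : Type} [NormedAddCommGroup E] [InnerProductSpace ℝ E] [CompleteSpace E]

/-- the Hilbert sum `E ⊕ ℝ` -/
abbrev HS (E : Type) : Type := WithLp 2 (E × ℝ)

variable (E) in
/-- inclusion of `E` -/
def hI : E →L[ℝ] HS E :=
  (WithLp.prodContinuousLinearEquiv 2 ℝ E ℝ).symm.toContinuousLinearMap ∘L .inl ℝ E ℝ

variable (E) in
/-- projection to `E` -/
def hP : HS E →L[ℝ] E :=
  .fst ℝ E ℝ ∘L (WithLp.prodContinuousLinearEquiv 2 ℝ E ℝ).toContinuousLinearMap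

variable (E) in
/-- inclusion of `ℝ` -/
def hJ : ℝ →L[ℝ] HS E :=
  (WithLp.prodContinuousLinearEquiv 2 ℝ E ℝ).symm.toContinuousLinearMap ∘L .inr ℝ E ℝ

variable (E) in
/-- projection to `ℝ` -/
def hQ : HS E →L[ℝ] ℝ :=
  .snd ℝ E ℝ ∘L (WithLp.prodContinuousLinearEquiv 2 ℝ E ℝ).toContinuousLinearMap

theorem hP_hI : hP E ∘L hI E = .id ℝ E := rfl

theorem hQ_hJ : hQ E ∘L hJ E = .id ℝ ℝ := rfl

/-- uniqueness of the Mishchenko-Fomenko index -/
theorem isInd_unique {e P : V G E →L[ℝ] V G E} (h1 : e ∈ RA G E) (h2 : P ∈ RA G E)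
    (he : e * e = e) (hP : P * P = P) {z z' : K0 (Cr G)} (h : IsInd e P z) (h' : IsInd e P z') :
    z = z' := by
  have a : (⟨e, h1⟩ : RA G E) * ⟨e, h1⟩ = ⟨e, h1⟩ := Subtype.ext he
  have b : (⟨P, h2⟩ : RA G E) * ⟨P, h2⟩ = ⟨P, h2⟩ := Subtype.ext hP
  exact (approx_cx _ _ (hQ_hJ (E := E))).uniq (by rw [sc_mul, ← map_mul, a])
    (by rw [sc_mul, ← map_mul, b]) ((isInd_iff hP_hI hQ_hJ _ _ a b z).1 h)
    ((isInd_iff hP_hI hQ_hJ _ _ a b z').1 h')

/-- existence of the Mishchenko-Fomenko index -/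
theorem isInd_exists {e P S : V G E →L[ℝ] V G E} (h1 : e ∈ RA G E) (h2 : P ∈ RA G E)
    (h3 : S ∈ RA G E) (he : e * e = e) (hP : P * P = P) (k1 : S * (P * e) - e ∈ KK G E)
    (k2 : P * e * S - P ∈ KK G E) : ∃ z, IsInd e P z := by
  have a : (⟨e, h1⟩ : RA G E) * ⟨e, h1⟩ = ⟨e, h1⟩ := Subtype.ext he
  have b : (⟨P, h2⟩ : RA G E) * ⟨P, h2⟩ = ⟨P, h2⟩ := Subtype.ext hP
  obtain ⟨z, hz⟩ := (approx_cx _ _ (hQ_hJ (E := E))).exists_idx
    (e := sc (corner G _ _ hP_hI ⟨e, h1⟩)) (f := sc (corner G _ _ hP_hI ⟨P, h2⟩))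
    (T := sc (corner G _ _ hP_hI (⟨P, h2⟩ * ⟨e, h1⟩))) (by rw [sc_mul, ← map_mul, a])
    (by rw [sc_mul, ← map_mul, b]) (by rw [sc_mul, ← map_mul, mul_assoc, a])
    (by rw [sc_mul, ← map_mul, ← mul_assoc, b])
    ⟨sc (corner G _ _ hP_hI ⟨S, h3⟩), by
      rw [sc_mul, sc_sub, ← map_mul, ← map_sub]
      exact ent_sc.2 (sand_mem_KI _ _ (mem_KI.2 k1)), by
      rw [sc_mul, sc_sub, ← map_mul, ← map_sub]
      exact ent_sc.2 (sand_mem_KI _ _ (mem_KI.2 k2))⟩
  exact ⟨z, (isInd_iff hP_hI hQ_hJ _ _ a b z).2 hz⟩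

end Final

end Pool.Agent.Lib.MFI
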