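import Pool.Agent.Lib.BCH.KApi

/-! Abstract Mishchenko-Fomenko index of an operator between two idempotents. -/

noncomputable section

open Matrix Function BCK Filter Topology

namespace Pool.Agent.Lib.MFI

open BCH

/-- a ring `L` with an ideal `J` and a corner isomorphic to `A` inside `J` -/
structure Ctx (L A : Type) [Ring L] [Ring A] where
  io : A →ₙ+* L
  J : TwoSidedIdeal L
  inj : Injective io
  full : ∀ a : L, ∃ b, io b = io 1 * a * io 1
  one_mem : io 1 ∈ J

section Alg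

variable {L A : Type} [Ring L] [Ring A] (C : Ctx L A)
variable {n n' n'' k k' ι μ ν ι' μ' : Type} [Fintype n] [Fintype n'] [Fintype n''] [Fintype k]
  [Fintype k'] [Fintype ι] [Fintype μ] [Fintype ν] [Fintype ι'] [Fintype μ']

/-- `T : ran e → ran f` has index `κ`: a perturbation of `T ⊕ 0` is an isomorphism
`ran e ⊕ ran q → ran f ⊕ ran p` and `κ = [p] - [q]` -/
def IsIdx (e : Matrix n n L) (f : Matrix n' n' L) (T : Matrix n' n L) (κ : K0 A) : Prop :=
  ∃ (ι μ : Type) (_ : Fintype ι) (_ : Fintype μ) (p : Matrix ι ι A) (q : Matrix μ μ A)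
    (U : Matrix (n' ⊕ ι) (n ⊕ μ) L) (V : Matrix (n ⊕ μ) (n' ⊕ ι) L),
    p * p = p ∧ q * q = q ∧ V * U = fromBlocks e 0 0 (q.map C.io) ∧
    U * V = fromBlocks f 0 0 (p.map C.io) ∧ Ent (C.J : Set L) (U.toBlocks₁₁ - T) ∧
    κ = cls p - cls q

/-- `T : ran e → ran f` is invertible modulo `J` -/
def Fred (e : Matrix n n L) (f : Matrix n' n' L) (T : Matrix n' n L) : Prop :=
  ∃ S : Matrix n n' L, Ent (C.J : Set L) (S * T - e) ∧ Ent (C.J : Set L) (T * S - f)

variable {C}

theorem entJ_left {J : TwoSidedIdeal L} {a b : Type} (x : Matrix a k L) {y : Matrix k b L}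
    (hy : Ent (J : Set L) y) : Ent (J : Set L) (x * y) := fun i j => by
  rw [Matrix.mul_apply]
  exact sum_mem (S := J) fun l _ => J.mul_mem_left _ _ (hy l j)

theorem entJ_right {J : TwoSidedIdeal L} {a b : Type} {x : Matrix a k L} (y : Matrix k b L)
    (hx : Ent (J : Set L) x) : Ent (J : Set L) (x * y) := fun i j => by
  rw [Matrix.mul_apply]
  exact sum_mem (S := J) fun l _ => J.mul_mem_right _ _ (hx i l)

theorem entJ_neg {J : TwoSidedIdeal L} {a b : Type} {x : Matrix a b L}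
    (hx : Ent (J : Set L) x) : Ent (J : Set L) (-x) := fun i j => J.neg_mem (hx i j)

theorem entJ_add {J : TwoSidedIdeal L} {a b : Type} {x y : Matrix a b L}
    (hx : Ent (J : Set L) x) (hy : Ent (J : Set L) y) : Ent (J : Set L) (x + y) :=
  fun i j => J.add_mem (hx i j) (hy i j)

theorem entJ_sub {J : TwoSidedIdeal L} {a b : Type} {x y : Matrix a b L}
    (hx : Ent (J : Set L) x) (hy : Ent (J : Set L) y) : Ent (J : Set L) (x - y) :=
  fun i j => J.sub_mem (hx i j) (hy i j)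

theorem entJ_zero {J : TwoSidedIdeal L} {a b : Type} : Ent (J : Set L) (0 : Matrix a b L) :=
  fun _ _ => J.zero_mem

theorem entJ_of_eq {J : TwoSidedIdeal L} {a b : Type} {x y : Matrix a b L}
    (hx : Ent (J : Set L) x) (h : y = x) : Ent (J : Set L) y := h ▸ hx

theorem Ctx.io_mem (a : A) : C.io a ∈ C.J := by
  have := C.J.mul_mem_left (C.io a) _ C.one_mem
  rwa [← map_mul, mul_one] at this

theorem entJ_map {a b : Type} (p : Matrix a b A) : Ent (C.J : Set L) (p.map C.io) :=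
  fun _ _ => Ctx.io_mem _

theorem map_io_mul {a b : Type} (x : Matrix a k A) (y : Matrix k b A) :
    (x * y).map C.io = x.map C.io * y.map C.io := Matrix.map_mul

theorem map_io_inj {a b : Type} {x y : Matrix a b A} (h : x.map C.io = y.map C.io) : x = y :=
  Matrix.map_injective C.inj h

theorem exists_lift_io {a b : Type} (p : Matrix a k A) (x : Matrix k k' L) (q : Matrix k' b A) :
    ∃ z : Matrix a b A, z.map C.io = p.map C.io * x * q.map C.io := by
  have h : ∀ i j, ∃ z, C.io z = (p.map C.io * x * q.map C.io) i j := fun i j => by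
    obtain ⟨z, hz⟩ := C.full ((p.map C.io * x * q.map C.io) i j)
    refine ⟨z, hz.trans ?_⟩
    simp only [Matrix.mul_apply, Matrix.map_apply, Finset.mul_sum, Finset.sum_mul]
    refine Finset.sum_congr rfl fun l _ => Finset.sum_congr rfl fun l' _ => ?_
    have h1 : C.io 1 * C.io (p i l') = C.io (p i l') := by rw [← map_mul, one_mul]
    have h2 : C.io (q l j) * C.io 1 = C.io (q l j) := by rw [← map_mul, mul_one]
    calc _ = (C.io 1 * C.io (p i l')) * x l' l * (C.io (q l j) * C.io 1) := by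
          simp only [mul_assoc]
      _ = _ := by rw [h1, h2]
  choose z hz using h
  exact ⟨Matrix.of z, by ext i j; exact hz i j⟩

/-- equivalence over `L` implies equivalence over `A` -/
theorem cls_eq_of_mvn {p : Matrix ι ι A} {q : Matrix μ μ A} (hp : p * p = p) (hq : q * q = q)
    (x : Matrix ι μ L) (y : Matrix μ ι L) (h1 : x * y = p.map C.io) (h2 : y * x = q.map C.io) :
    cls p = cls q := by
  obtain ⟨a, ha⟩ := exists_lift_io (C := C) p x q
  obtain ⟨b, hb⟩ := exists_lift_io (C := C) q y p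
  have hP := idem_map hp C.io
  have hQ := idem_map hq C.io
  refine cls_mvn hp hq a b (map_io_inj (C := C) ?_) (map_io_inj (C := C) ?_)
  · rw [map_io_mul, ha, hb]
    calc _ = p.map C.io * (x * ((q.map C.io * q.map C.io) * y)) * p.map C.io := by
          simp only [Matrix.mul_assoc]
      _ = p.map C.io * ((x * y) * (x * y)) * p.map C.io := by
          rw [hQ, ← h2]; simp only [Matrix.mul_assoc]
      _ = _ := by rw [h1, hP, hP, hP]
  · rw [map_io_mul, ha, hb]
    calc _ = q.map C.io * (y * ((p.map C.io * p.map C.io) * x)) * q.map C.io := by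
          simp only [Matrix.mul_assoc]
      _ = q.map C.io * ((y * x) * (y * x)) * q.map C.io := by
          rw [hP, ← h1]; simp only [Matrix.mul_assoc]
      _ = _ := by rw [h2, hQ, hQ, hQ]

theorem tb11_mul {a b c a' b' c' : Type} [Fintype b] [Fintype b'] (U : Matrix (a ⊕ a') (b ⊕ b') L)
    (V : Matrix (b ⊕ b') (c ⊕ c') L) :
    (U * V).toBlocks₁₁ = U.toBlocks₁₁ * V.toBlocks₁₁ + U.toBlocks₁₂ * V.toBlocks₂₁ := by
  conv_lhs => rw [← fromBlocks_toBlocks U, ← fromBlocks_toBlocks V, fromBlocks_multiply]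
  exact toBlocks_fromBlocks₁₁ _ _ _ _

theorem tb11_sand {a b c a' b' c' : Type} [Fintype b] [Fintype b']
    (U : Matrix (a ⊕ a') (b ⊕ b') L) (f : Matrix b b L) (P : Matrix b' b' L)
    (V : Matrix (b ⊕ b') (c ⊕ c') L) :
    (U * fromBlocks f 0 0 P * V).toBlocks₁₁ =
      U.toBlocks₁₁ * f * V.toBlocks₁₁ + U.toBlocks₁₂ * P * V.toBlocks₂₁ := by
  conv_lhs => rw [← fromBlocks_toBlocks U, ← fromBlocks_toBlocks V, fromBlocks_multiply,
    fromBlocks_multiply]
  simp

variable {e : Matrix n n L} {f : Matrix n' n' L} {g : Matrix n'' n'' L} {T T₁ : Matrix n' n L}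
  {T' : Matrix n'' n' L} {κ κ' : K0 A}

theorem IsIdx.congr (h : IsIdx C e f T κ) (hT : Ent (C.J : Set L) (T - T₁)) :
    IsIdx C e f T₁ κ := by
  obtain ⟨ι, μ, _, _, p, q, U, V, hp, hq, h1, h2, h3, h4⟩ := h
  exact ⟨ι, μ, _, _, p, q, U, V, hp, hq, h1, h2, entJ_of_eq (entJ_add h3 hT) (by abel), h4⟩

/-- an isomorphism has index zero -/
theorem IsIdx.of_iso (S : Matrix n n' L) (h1 : S * T = e) (h2 : T * S = f) :
    IsIdx C e f T 0 := by
  refine ⟨Empty, Empty, inferInstance, inferInstance, 0, 0, fromBlocks T 0 0 0,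
    fromBlocks S 0 0 0, by simp, by simp, ?_, ?_, ?_, by simp⟩
  · rw [fromBlocks_multiply]; simp [h1]
  · rw [fromBlocks_multiply]; simp [h2]
  · simpa using entJ_zero

/-- additivity under composition -/
theorem IsIdx.comp (h : IsIdx C e f T κ) (h' : IsIdx C f g T' κ') (he : e * e = e)
    (hf : f * f = f) (hg : g * g = g) : IsIdx C e g (T' * f * T) (κ + κ') := by
  obtain ⟨ι, μ, _, _, p, q, U, V, hp, hq, h1, h2, h3, rfl⟩ := h
  obtain ⟨ι', μ', _, _, p', q', U', V', hp', hq', h1', h2', h3', rfl⟩ := h'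
  have hP := idem_map hp C.io
  have hQ := idem_map hq C.io
  have hP' := idem_map hp' C.io
  have hQ' := idem_map hq' C.io
  let s : n' ⊕ (ι ⊕ μ') ≃ (n' ⊕ μ') ⊕ ι :=
    ((Equiv.refl n').sumCongr (Equiv.sumComm ι μ')).trans (Equiv.sumAssoc n' μ' ι).symm
  let U1 := (fromBlocks U 0 0 (q'.map C.io)).submatrix (Equiv.sumAssoc n' ι μ').symm
    (Equiv.sumAssoc n μ μ').symm
  let V1 := (fromBlocks V 0 0 (q'.map C.io)).submatrix (Equiv.sumAssoc n μ μ').symm
    (Equiv.sumAssoc n' ι μ').symm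
  let U2 := (fromBlocks U' 0 0 (p.map C.io)).submatrix (Equiv.sumAssoc n'' ι' ι).symm s
  let V2 := (fromBlocks V' 0 0 (p.map C.io)).submatrix s (Equiv.sumAssoc n'' ι' ι).symm
  have a1 : V1 * U1 = fromBlocks e 0 0 ((fromBlocks q 0 0 q').map C.io) := by
    simp only [V1, U1, submatrix_mul_equiv, fromBlocks_multiply, h1, hQ']
    ext (i | i | i) (j | j | j) <;> simp
  have a2 : U1 * V1 = fromBlocks f 0 0 ((fromBlocks p 0 0 q').map C.io) := by
    simp only [V1, U1, submatrix_mul_equiv, fromBlocks_multiply, h2, hQ']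
    ext (i | i | i) (j | j | j) <;> simp
  have a3 : V2 * U2 = fromBlocks f 0 0 ((fromBlocks p 0 0 q').map C.io) := by
    simp only [V2, U2, submatrix_mul_equiv, fromBlocks_multiply, h1', hP]
    ext (i | i | i) (j | j | j) <;> simp [s]
  have a4 : U2 * V2 = fromBlocks g 0 0 ((fromBlocks p' 0 0 p).map C.io) := by
    simp only [V2, U2, submatrix_mul_equiv, fromBlocks_multiply, h2', hP]
    ext (i | i | i) (j | j | j) <;> simp
  have i1 := idem_fromBlocks he (idem_map (idem_fromBlocks hq hq') C.io)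
  have i2 := idem_fromBlocks hf (idem_map (idem_fromBlocks hp hq') C.io)
  have i3 := idem_fromBlocks hg (idem_map (idem_fromBlocks hp' hp) C.io)
  refine ⟨ι' ⊕ ι, μ ⊕ μ', inferInstance, inferInstance, fromBlocks p' 0 0 p, fromBlocks q 0 0 q',
    U2 * fromBlocks f 0 0 ((fromBlocks p 0 0 q').map C.io) * U1, V1 * V2,
    idem_fromBlocks hp' hp, idem_fromBlocks hq hq', ?_, ?_, ?_, ?_⟩
  · calc _ = V1 * ((V2 * U2) * fromBlocks f 0 0 ((fromBlocks p 0 0 q').map C.io)) * U1 := by
          simp only [Matrix.mul_assoc]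
      _ = (V1 * U1) * (V1 * U1) := by rw [a3, i2, ← a2]; simp only [Matrix.mul_assoc]
      _ = _ := by rw [a1, i1]
  · calc _ = U2 * (fromBlocks f 0 0 ((fromBlocks p 0 0 q').map C.io) * (U1 * V1)) * V2 := by
          simp only [Matrix.mul_assoc]
      _ = (U2 * V2) * (U2 * V2) := by rw [a2, i2, ← a3]; simp only [Matrix.mul_assoc]
      _ = _ := by rw [a4, i3]
  · rw [tb11_sand]
    have b1 : U1.toBlocks₁₁ = U.toBlocks₁₁ := by ext i j; rfl
    have b2 : U2.toBlocks₁₁ = U'.toBlocks₁₁ := by ext i j; rfl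
    rw [b1, b2]
    refine entJ_of_eq (entJ_add (entJ_add (entJ_right U.toBlocks₁₁ (entJ_right f h3'))
      (entJ_left (T' * f) h3)) (entJ_right U1.toBlocks₂₁ (entJ_left U2.toBlocks₁₂
        (entJ_map (C := C) (fromBlocks p 0 0 q'))))) ?_
    simp only [Matrix.sub_mul, Matrix.mul_sub]
    abel
  · rw [cls_fromBlocks hp' hp, cls_fromBlocks hq hq']; abel

/-- the inverse direction -/
theorem IsIdx.symm (h : IsIdx C e f T κ) (he : e * e = e) (hf : f * f = f) :
    ∃ S, IsIdx C f e S (-κ) ∧ Ent (C.J : Set L) (T * e * S - f) ∧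
      Ent (C.J : Set L) (S * f * T - e) := by
  obtain ⟨ι, μ, _, _, p, q, U, V, hp, hq, h1, h2, h3, rfl⟩ := h
  have i1 := idem_fromBlocks he (idem_map hq C.io)
  have i2 := idem_fromBlocks hf (idem_map hp C.io)
  refine ⟨V.toBlocks₁₁, ⟨μ, ι, _, _, q, p, V, U, hq, hp, h2, h1, by simpa using entJ_zero,
    by abel⟩, ?_, ?_⟩
  · have a : U * fromBlocks e 0 0 (q.map C.io) * V = fromBlocks f 0 0 (p.map C.io) := by
      rw [← h1, ← i2, ← h2]; simp only [Matrix.mul_assoc]
    have b := congrArg toBlocks₁₁ a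
    rw [tb11_sand, toBlocks_fromBlocks₁₁] at b
    refine entJ_of_eq (entJ_sub (entJ_neg (entJ_right V.toBlocks₁₁ (entJ_right e h3)))
      (entJ_right V.toBlocks₂₁ (entJ_left U.toBlocks₁₂ (entJ_map (C := C) q)))) ?_
    rw [← b]
    simp only [Matrix.sub_mul]
    abel
  · have a : V * fromBlocks f 0 0 (p.map C.io) * U = fromBlocks e 0 0 (q.map C.io) := by
      rw [← h2, ← i1, ← h1]; simp only [Matrix.mul_assoc]
    have b := congrArg toBlocks₁₁ a
    rw [tb11_sand, toBlocks_fromBlocks₁₁] at b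
    refine entJ_of_eq (entJ_sub (entJ_neg (entJ_left (V.toBlocks₁₁ * f) h3))
      (entJ_right U.toBlocks₂₁ (entJ_left V.toBlocks₁₂ (entJ_map (C := C) p)))) ?_
    rw [← b]
    simp only [Matrix.mul_sub]
    abel

/-- additivity under direct sums -/
theorem IsIdx.sum {e' : Matrix k k L} {f' : Matrix k' k' L} {S : Matrix k' k L}
    (h : IsIdx C e f T κ) (h' : IsIdx C e' f' S κ') :
    IsIdx C (fromBlocks e 0 0 e') (fromBlocks f 0 0 f') (fromBlocks T 0 0 S) (κ + κ') := by
  obtain ⟨ι, μ, _, _, p, q, U, V, hp, hq, h1, h2, h3, rfl⟩ := h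
  obtain ⟨ι', μ', _, _, p', q', U', V', hp', hq', h1', h2', h3', rfl⟩ := h'
  refine ⟨ι ⊕ ι', μ ⊕ μ', inferInstance, inferInstance, fromBlocks p 0 0 p', fromBlocks q 0 0 q',
    (fromBlocks U 0 0 U').submatrix (Equiv.sumSumSumComm n' k' ι ι')
      (Equiv.sumSumSumComm n k μ μ'),
    (fromBlocks V 0 0 V').submatrix (Equiv.sumSumSumComm n k μ μ')
      (Equiv.sumSumSumComm n' k' ι ι'),
    idem_fromBlocks hp hp', idem_fromBlocks hq hq', ?_, ?_, ?_, ?_⟩
  · simp only [submatrix_mul_equiv, fromBlocks_multiply, h1, h1']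
    ext ((i | i) | (i | i)) ((j | j) | (j | j)) <;> simp
  · simp only [submatrix_mul_equiv, fromBlocks_multiply, h2, h2']
    ext ((i | i) | (i | i)) ((j | j) | (j | j)) <;> simp
  · rintro (i | i) (j | j)
    · exact h3 i j
    · simp [toBlocks₁₁]
    · simp [toBlocks₁₁]
    · exact h3' i j
  · rw [cls_fromBlocks hp hp', cls_fromBlocks hq hq']; abel

/-- naturality -/
theorem IsIdx.map {L' A' : Type} [Ring L'] [Ring A'] {C' : Ctx L' A'} (Φ : L →ₙ+* L')
    (φ : A →ₙ+* A') (hio : ∀ a, Φ (C.io a) = C'.io (φ a)) (hJ : ∀ a ∈ C.J, Φ a ∈ C'.J)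
    (h : IsIdx C e f T κ) : IsIdx C' (e.map Φ) (f.map Φ) (T.map Φ) (K0.map φ κ) := by
  obtain ⟨ι, μ, _, _, p, q, U, V, hp, hq, h1, h2, h3, rfl⟩ := h
  refine ⟨ι, μ, _, _, p.map φ, q.map φ, U.map Φ, V.map Φ, idem_map hp φ, idem_map hq φ,
    ?_, ?_, fun i j => ?_, by rw [map_sub, map_cls φ hp, map_cls φ hq]⟩
  · rw [← Matrix.map_mul, h1]
    ext (i | i) (j | j) <;> simp [hio]
  · rw [← Matrix.map_mul, h2]
    ext (i | i) (j | j) <;> simp [hio]
  · have := hJ _ (h3 i j)
    simpa [toBlocks₁₁] using this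

theorem IsIdx.fred (h : IsIdx C e f T κ) (he : e * e = e) (hf : f * f = f) (hT : T * e = T)
    (hT' : f * T = T) : Fred C e f T := by
  obtain ⟨S, -, h1, h2⟩ := h.symm he hf
  exact ⟨S, by rwa [Matrix.mul_assoc, hT'] at h2, by rwa [hT] at h1⟩

end Alg

end Pool.Agent.Lib.MFI
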