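import Pool.Agent.Lib.MFI.Ban

/-! Finite projections from a Hilbert space; normal form and stability of the index. -/

noncomputable section

open Matrix Function BCK Filter Topology

namespace Pool.Agent.Lib.MFI

open BCH

section Hilbert

variable {H : Type} [NormedAddCommGroup H] [InnerProductSpace ℝ H] [CompleteSpace H]

/-- the orthogonal projection on the span of a finite set -/
def prS (s : Finset H) : H →L[ℝ] H := (Submodule.span ℝ (s : Set H)).starProjection

theorem norm_prS (s : Finset H) : ‖prS s‖ ≤ 1 := Submodule.starProjection_norm_le _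

theorem prS_of_mem {s : Finset H} {v : H} (h : v ∈ Submodule.span ℝ (s : Set H)) :
    prS s v = v := Submodule.starProjection_eq_self_iff.2 h

theorem prS_mem (s : Finset H) (v : H) : prS s v ∈ Submodule.span ℝ (s : Set H) :=
  Submodule.starProjection_apply_mem _ _

theorem prS_symm (s : Finset H) (v w : H) : inner ℝ (prS s v) w = inner ℝ v (prS s w) :=
  Submodule.starProjection_isSymmetric _ v w

theorem tendsto_prS {T : H →L[ℝ] H} (hT : IsCompactOperator T) :
    Tendsto (fun s : Finset H => prS s * T * prS s) atTop (𝓝 T) := by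
  classical
  rw [Metric.tendsto_atTop]
  intro ε hε
  obtain ⟨K, hK, hb⟩ := IsCompactOperator.image_closedBall_subset_compact (f := T.toLinearMap) hT 1
  obtain ⟨t, ht, hc⟩ := Metric.totallyBounded_iff.1 hK.totallyBounded (ε / 8) (by positivity)
  have h1 : ‖prS ht.toFinset * T - T‖ ≤ ε / 4 := by
    refine ContinuousLinearMap.opNorm_le_of_unit_norm (by positivity) fun x hx => ?_
    obtain ⟨y, hy, h⟩ := Set.mem_iUnion₂.1 (hc (hb ⟨x, by simp [hx], rfl⟩))
    have h' : ‖T x - y‖ < ε / 8 := by simpa [dist_eq_norm] using h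
    have e : (prS ht.toFinset * T - T) x = prS ht.toFinset (T x - y) - (T x - y) := by
      simp [map_sub, prS_of_mem (s := ht.toFinset) (Submodule.subset_span (by simpa using hy))]
    rw [e]
    have := (prS ht.toFinset).le_of_opNorm_le (norm_prS _) (T x - y)
    linarith [norm_sub_le (prS ht.toFinset (T x - y)) (T x - y)]
  set s0 := ht.toFinset
  refine ⟨s0 ∪ s0.image (ContinuousLinearMap.adjoint T), fun s hs => ?_⟩
  have a1 : prS s * (prS s0 * T) = prS s0 * T := by
    ext x
    exact prS_of_mem (Submodule.span_mono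
      (Finset.coe_subset.2 (Finset.subset_union_left.trans hs)) (prS_mem s0 _))
  have a2 : prS s0 * T * prS s = prS s0 * T := by
    ext x
    refine ext_inner_right ℝ fun w => ?_
    have m : ContinuousLinearMap.adjoint T (prS s0 w) ∈ Submodule.span ℝ (s : Set H) := by
      have := Submodule.mem_map_of_mem (f := (ContinuousLinearMap.adjoint T).toLinearMap)
        (prS_mem s0 w)
      rw [Submodule.map_span] at this
      refine Submodule.span_mono ?_ this
      rintro _ ⟨y, hy, rfl⟩
      exact hs (Finset.mem_union_right _ (Finset.mem_image_of_mem _ hy))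
    change inner ℝ (prS s0 (T (prS s x))) w = inner ℝ (prS s0 (T x)) w
    rw [prS_symm, prS_symm, ← ContinuousLinearMap.adjoint_inner_right,
      ← ContinuousLinearMap.adjoint_inner_right T, prS_symm, prS_of_mem m]
  have e : prS s * T * prS s - T =
      (prS s0 * T - T) - prS s * (prS s0 * T - T) * prS s := by
    rw [mul_sub, sub_mul, a1, a2]; abel
  rw [dist_eq_norm, e]
  have b : ‖prS s * (prS s0 * T - T) * prS s‖ ≤ ε / 4 :=
    calc _ ≤ ‖prS s‖ * ‖prS s0 * T - T‖ * ‖prS s‖ := norm_mul₃_le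
      _ ≤ 1 * (ε / 4) * 1 := by gcongr <;> exact norm_prS _
      _ = _ := by ring
  linarith [norm_sub_le (prS s0 * T - T) (prS s * (prS s0 * T - T) * prS s)]

variable {L A : Type} [NormedRing L] [NormedAlgebra ℝ L] [Ring A] {C : Ctx L A}

/-- finite projections approximate an ideal generated by the compact operators of a Hilbert space
and their commutant -/
theorem approx_of (θ : (H →L[ℝ] H) →ₐ[ℝ] L) (hθ : Continuous θ) (j : ℝ →L[ℝ] H)
    (q : H →L[ℝ] ℝ) (hq : ∀ t, q (j t) = t) (hio : C.io 1 = θ (j ∘L q))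
    (hJ : ∀ a ∈ C.J, a ∈ (Submodule.span ℝ {b | ∃ (T : H →L[ℝ] H) (c : L), IsCompactOperator T ∧
      (∀ S, Commute c (θ S)) ∧ b = θ T * c}).topologicalClosure) : Approx C := by
  classical
  let θL : (H →L[ℝ] H) →L[ℝ] L := ⟨θ.toLinearMap, hθ⟩
  have hb : ∀ s : Finset H, ‖θ (prS s)‖ ≤ ‖θL‖ := fun s =>
    (θL.le_of_opNorm_le_of_le le_rfl (norm_prS s)).trans (by simp)
  let N : Submodule ℝ L :=
    { carrier := {a | Tendsto (fun s : Finset H => θ (prS s) * a * θ (prS s)) atTop (𝓝 a)}
      add_mem' := fun ha hb => by simpa only [Set.mem_ofPred_eq, mul_add, add_mul] using ha.add hb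
      zero_mem' := by simp
      smul_mem' := fun c a ha => by
        simpa only [Set.mem_ofPred_eq, mul_smul_comm, smul_mul_assoc] using ha.const_smul c }
  have hN : IsClosed (N : Set L) := by
    refine isClosed_of_closure_subset fun a ha => Metric.tendsto_atTop.2 fun ε hε => ?_
    have hM : 0 < ‖θL‖ * ‖θL‖ + 2 := by positivity
    obtain ⟨b, hbN, hab⟩ := Metric.mem_closure_iff.1 ha (ε / (‖θL‖ * ‖θL‖ + 2)) (by positivity)
    obtain ⟨s0, hs0⟩ := Metric.tendsto_atTop.1 hbN (ε / (‖θL‖ * ‖θL‖ + 2)) (by positivity)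
    refine ⟨s0, fun s hs => ?_⟩
    have h1 := hs0 s hs
    rw [dist_eq_norm] at h1 hab ⊢
    have e : θ (prS s) * a * θ (prS s) - a = θ (prS s) * (a - b) * θ (prS s) +
        (θ (prS s) * b * θ (prS s) - b) - (a - b) := by noncomm_ring
    have h2 : ‖θ (prS s) * (a - b) * θ (prS s)‖ ≤ ‖θL‖ * (ε / (‖θL‖ * ‖θL‖ + 2)) * ‖θL‖ :=
      norm_mul₃_le.trans (by gcongr <;> exact hb s)
    have h3 : (‖θL‖ * ‖θL‖ + 2) * (ε / (‖θL‖ * ‖θL‖ + 2)) = ε := mul_div_cancel₀ _ hM.ne'
    rw [e]
    refine (norm_sub_le _ _).trans_lt ?_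
    have := norm_add_le (θ (prS s) * (a - b) * θ (prS s)) (θ (prS s) * b * θ (prS s) - b)
    linarith
  have hle : ∀ a ∈ C.J, a ∈ N := fun a ha => by
    refine Submodule.topologicalClosure_minimal _ (Submodule.span_le.2 ?_) hN (hJ a ha)
    rintro _ ⟨T, c, hT, hc, rfl⟩
    have := ((hθ.tendsto T).comp (tendsto_prS hT)).mul_const c
    refine this.congr fun s => ?_
    simp only [Function.comp, map_mul, mul_assoc, (hc (prS s)).eq]
  intro S hS ε hε
  have : ∀ᶠ s : Finset H in atTop, ∀ a ∈ S, dist (θ (prS s) * a * θ (prS s)) a < ε :=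
    (Finset.eventually_all S).2 fun a ha => Metric.tendsto_nhds.1 (hle a (hS a ha)) ε hε
  obtain ⟨s, hs⟩ := this.exists
  let b := stdOrthonormalBasis ℝ (Submodule.span ℝ (s : Set H))
  refine ⟨_, fun i => θ (.toSpanSingleton ℝ (b i : H) ∘L q), fun i => θ (j ∘L innerSL ℝ (b i : H)),
    fun i k => ?_, fun i => ?_, fun a ha => ?_⟩
  · rw [← map_mul, hio]
    have := orthonormal_iff_ite.1 b.orthonormal i k
    rw [Submodule.coe_inner] at this
    split_ifs at this ⊢ with h
    · congr 1; ext x
      change j (inner ℝ (b i : H) (q x • (b k : H))) = j (q x)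
      rw [inner_smul_right, this, mul_one]
    · rw [← map_zero θ]; congr 1; ext x
      change j (inner ℝ (b i : H) (q x • (b k : H))) = 0
      rw [inner_smul_right, this, mul_zero, map_zero]
  · rw [hio, ← map_mul]; congr 1; ext x; simp [hq]
  · have e : ∑ i, θ (.toSpanSingleton ℝ (b i : H) ∘L q) * θ (j ∘L innerSL ℝ (b i : H)) =
        θ (prS s) := by
      rw [prS, b.starProjection_eq_sum_rankOne, map_sum]
      refine Finset.sum_congr rfl fun i _ => ?_
      rw [← map_mul]; congr 1; ext x; simp [hq]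
    rw [e, ← dist_eq_norm]
    exact hs a ha

end Hilbert

section Alg

variable {L A : Type} [Ring L] [Ring A] {C : Ctx L A}
variable {n n' : Type} [Fintype n] [Fintype n']
variable {e : Matrix n n L} {f : Matrix n' n' L} {T : Matrix n' n L} {κ : K0 A}

/-- normal form: square blocks indexed by `Fin r`, and `U` lives in the corner -/
theorem IsIdx.normal (h : IsIdx C e f T κ) (he : e * e = e) (hf : f * f = f) :
    ∃ (r : ℕ) (p q : Matrix (Fin r) (Fin r) A) (U : Matrix (n' ⊕ Fin r) (n ⊕ Fin r) L)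
      (V : Matrix (n ⊕ Fin r) (n' ⊕ Fin r) L), p * p = p ∧ q * q = q ∧
      V * U = fromBlocks e 0 0 (q.map C.io) ∧ U * V = fromBlocks f 0 0 (p.map C.io) ∧
      U * fromBlocks e 0 0 (q.map C.io) = U ∧ fromBlocks f 0 0 (p.map C.io) * U = U ∧
      Ent (C.J : Set L) (U - fromBlocks (f * T * e) 0 0 0) ∧ κ = cls p - cls q := by
  obtain ⟨ι, μ, _, _, p, q, U, V, hp, hq, h1, h2, h3, rfl⟩ := h
  have i1 := idem_fromBlocks he (idem_map hq C.io)
  have i2 := idem_fromBlocks hf (idem_map hp C.io)
  set H := fromBlocks e 0 0 (q.map C.io) with hH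
  set H' := fromBlocks f 0 0 (p.map C.io) with hH'
  have w1 : V * (H' * U * H) = H := by
    calc _ = (V * U) * (V * U) * H := by rw [← h2]; simp only [Matrix.mul_assoc]
      _ = _ := by rw [h1, i1, i1]
  have w2 : (H' * U * H) * V = H' := by
    calc _ = H' * ((U * V) * (U * V)) := by rw [← h1]; simp only [Matrix.mul_assoc]
      _ = _ := by rw [h2, i2, i2]
  have w3 : H' * U * H * H = H' * U * H := by rw [Matrix.mul_assoc _ H, i1]
  have w4 : H' * (H' * U * H) = H' * U * H := by simp only [← Matrix.mul_assoc, i2]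
  have hK : Ent (C.J : Set L) (H' * U * H - fromBlocks (f * T * e) 0 0 0) := by
    rw [← fromBlocks_toBlocks U]
    simp only [hH, hH', fromBlocks_multiply, Matrix.zero_mul, add_zero, zero_add, Matrix.mul_zero]
    rintro (i | i) (j | j)
    · have := entJ_right e (entJ_left f h3) i j
      rw [Matrix.mul_sub, Matrix.sub_mul] at this
      exact this
    · simpa using entJ_left (f * U.toBlocks₁₂) (entJ_map (C := C) q) i j
    · simpa using entJ_right e (entJ_right U.toBlocks₂₁ (entJ_map (C := C) p)) i j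
    · simpa using entJ_left (p.map C.io * U.toBlocks₂₂) (entJ_map (C := C) q) i j
  generalize H' * U * H = W at w1 w2 w3 w4 hK
  let σ := (Fintype.equivFin (ι ⊕ μ)).symm
  let s : n' ⊕ Fin (Fintype.card (ι ⊕ μ)) ≃ (n' ⊕ ι) ⊕ μ :=
    ((Equiv.refl n').sumCongr σ).trans (Equiv.sumAssoc n' ι μ).symm
  let t : n ⊕ Fin (Fintype.card (ι ⊕ μ)) ≃ (n ⊕ μ) ⊕ ι :=
    ((Equiv.refl n).sumCongr (σ.trans (Equiv.sumComm ι μ))).trans (Equiv.sumAssoc n μ ι).symm
  have z1 : (0 : Matrix μ μ A) * (0 : Matrix μ μ A) = 0 := Matrix.mul_zero _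
  have z2 : (0 : Matrix ι ι A) * (0 : Matrix ι ι A) = 0 := Matrix.mul_zero _
  have e1 : fromBlocks e 0 0 (((fromBlocks (0 : Matrix ι ι A) 0 0 q).submatrix σ σ).map C.io) =
      (fromBlocks H 0 0 (0 : Matrix ι ι L)).submatrix t t := by
    ext (i | i) (j | j)
    · rfl
    · rcases hj : σ j with j' | j' <;> simp [t, hj, hH]
    · rcases hi : σ i with i' | i' <;> simp [t, hi, hH]
    · rcases hi : σ i with i' | i' <;> rcases hj : σ j with j' | j' <;> simp [t, hi, hj, hH]
  have e2 : fromBlocks f 0 0 (((fromBlocks p 0 0 (0 : Matrix μ μ A)).submatrix σ σ).map C.io) =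
      (fromBlocks H' 0 0 (0 : Matrix μ μ L)).submatrix s s := by
    ext (i | i) (j | j)
    · rfl
    · rcases hj : σ j with j' | j' <;> simp [s, hj, hH']
    · rcases hi : σ i with i' | i' <;> simp [s, hi, hH']
    · rcases hi : σ i with i' | i' <;> rcases hj : σ j with j' | j' <;> simp [s, hi, hj, hH']
  refine ⟨_, (fromBlocks p 0 0 0).submatrix σ σ, (fromBlocks 0 0 0 q).submatrix σ σ,
    (fromBlocks W 0 0 (0 : Matrix μ ι L)).submatrix s t,
    (fromBlocks V 0 0 (0 : Matrix ι μ L)).submatrix t s,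
    idem_submatrix (idem_fromBlocks hp z1) σ, idem_submatrix (idem_fromBlocks z2 hq) σ,
    ?_, ?_, ?_, ?_, ?_, ?_⟩
  · rw [e1, submatrix_mul_equiv, fromBlocks_multiply]; simp [w1]
  · rw [e2, submatrix_mul_equiv, fromBlocks_multiply]; simp [w2]
  · rw [e1, submatrix_mul_equiv, fromBlocks_multiply]; simp [w3]
  · rw [e2, submatrix_mul_equiv, fromBlocks_multiply]; simp [w4]
  · rintro (i | i) (j | j)
    · exact hK (.inl i) (.inl j)
    · rcases hj : σ j with j' | j'
      · simp [s, t, hj]
      · simpa [s, t, hj] using hK (.inl i) (.inr j')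
    · rcases hi : σ i with i' | i'
      · simpa [s, t, hi] using hK (.inr i') (.inl j)
      · simp [s, t, hi]
    · rcases hi : σ i with i' | i' <;> rcases hj : σ j with j' | j'
      · simp [s, t, hi, hj]
      · simpa [s, t, hi, hj] using hK (.inr i') (.inr j')
      · simp [s, t, hi, hj]
      · simp [s, t, hi, hj]
  · have c1 : cls (0 : Matrix μ μ A) = 0 := by
      have := cls_add z1 z1 z1 z1
      rw [add_zero] at this
      exact left_eq_add.1 this
    have c2 : cls (0 : Matrix ι ι A) = 0 := by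
      have := cls_add z2 z2 z2 z2
      rw [add_zero] at this
      exact left_eq_add.1 this
    rw [cls_submatrix_equiv, cls_submatrix_equiv, cls_fromBlocks hp z1, cls_fromBlocks z2 hq,
      c1, c2, add_zero, zero_add]

end Alg

end Pool.Agent.Lib.MFI
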