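import Pool.Agent.Lib.MFI.Abs

/-! Existence, uniqueness and homotopy invariance of the abstract index over a Banach algebra. -/

noncomputable section

open Matrix Function BCK Filter Topology

namespace Pool.Agent.Lib.MFI

open BCH

variable {L A : Type} [NormedRing L] [NormedAlgebra ℝ L] [CompleteSpace L] [Ring A]

/-- finite projections `∑ x i * y i` approximate the elements of `J` -/
def Approx (C : Ctx L A) : Prop :=
  ∀ S : Finset L, (∀ a ∈ S, a ∈ C.J) → ∀ ε : ℝ, 0 < ε → ∃ (r : ℕ) (x y : Fin r → L),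
    (∀ i j, y i * x j = if i = j then C.io 1 else 0) ∧ (∀ i, x i * C.io 1 = x i) ∧
    ∀ a ∈ S, ‖(∑ i, x i * y i) * a * (∑ i, x i * y i) - a‖ < ε

variable {C : Ctx L A}
variable {n n' n'' k k' ι μ : Type} [Fintype n] [Fintype n'] [Fintype n''] [Fintype k]
  [Fintype k'] [Fintype ι] [Fintype μ]

/-- a finite projection -/
structure Fin1 (C : Ctx L A) where
  r : ℕ
  x : Fin r → L
  y : Fin r → L
  yx : ∀ i j, y i * x j = if i = j then C.io 1 else 0
  xv : ∀ i, x i * C.io 1 = x i

namespace Fin1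

variable (F : Fin1 C)

/-- the projection -/
def P : L := ∑ i, F.x i * F.y i

/-- the scalar matrix of the projection -/
def D (n : Type) [DecidableEq n] : Matrix n n L := diagonal fun _ => F.P

/-- the columns -/
def X (n : Type) [DecidableEq n] : Matrix n (n × Fin F.r) L :=
  of fun i j => if i = j.1 then F.x j.2 else 0

/-- the rows -/
def Y (n : Type) [DecidableEq n] : Matrix (n × Fin F.r) n L :=
  of fun j i => if j.1 = i then F.y j.2 else 0

theorem XY [DecidableEq n] : F.X n * F.Y n = F.D n := by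
  ext i j
  simp only [X, Y, D, P, Matrix.mul_apply, of_apply, Fintype.sum_prod_type, diagonal_apply]
  rw [Finset.sum_eq_single i (fun b _ hb => by simp [hb.symm]) (by simp)]
  by_cases h : i = j <;> simp [h]

theorem YX [DecidableEq n] : F.Y n * F.X n = (1 : Matrix (n × Fin F.r) (n × Fin F.r) A).map C.io := by
  ext ⟨i, s⟩ ⟨j, t⟩
  simp only [X, Y, Matrix.mul_apply, of_apply, Matrix.map_apply, Matrix.one_apply, Prod.mk.injEq]
  rw [Finset.sum_eq_single i (fun b _ hb => by simp [hb.symm]) (by simp)]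
  by_cases h : i = j <;> by_cases h' : s = t <;> simp [h, h', F.yx]

theorem X_one [DecidableEq n] :
    F.X n * (1 : Matrix (n × Fin F.r) (n × Fin F.r) A).map C.io = F.X n := by
  ext i ⟨j, t⟩
  simp only [X, Matrix.mul_apply, of_apply, Matrix.map_apply, Matrix.one_apply]
  rw [Finset.sum_eq_single (j, t) (fun b _ hb => by simp [hb]) (by simp)]
  split_ifs with h <;> simp_all [F.xv]

theorem DD [DecidableEq n] : F.D n * F.D n = F.D n := by
  rw [← F.XY]
  calc _ = F.X n * (F.Y n * F.X n) * F.Y n := by simp only [Matrix.mul_assoc]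
    _ = _ := by rw [F.YX, F.X_one]

theorem ent_X [DecidableEq n] : Ent (C.J : Set L) (F.X n) := by
  rw [← F.X_one]; exact entJ_left _ (entJ_map _)

theorem ent_D [DecidableEq n] : Ent (C.J : Set L) (F.D n) := by
  rw [← F.XY]; exact entJ_right _ F.ent_X

end Fin1

theorem Approx.exists_mem (hC : Approx C) [DecidableEq n] [DecidableEq k] {K : Matrix n k L}
    (hK : Ent (C.J : Set L) K) {U : Set (Matrix n k L)} (hU : U ∈ 𝓝 K) :
    ∃ F : Fin1 C, F.D n * K * F.D k ∈ U := by
  classical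
  obtain ⟨ε, hε, hb⟩ : ∃ ε > 0, ∀ Z : Matrix n k L, (∀ i j, ‖Z i j - K i j‖ < ε) → Z ∈ U := by
    have hU' : U ∈ @nhds (n → k → L) _ K := hU
    obtain ⟨ε, hε, hb⟩ := Metric.mem_nhds_iff.1 hU'
    refine ⟨ε, hε, fun Z hZ => hb ?_⟩
    rw [Metric.mem_ball, dist_pi_lt_iff hε]
    intro i
    rw [dist_pi_lt_iff hε]
    intro j
    rw [dist_eq_norm]
    exact hZ i j
  obtain ⟨r, x, y, h1, h2, h3⟩ := hC (Finset.univ.image fun z : n × k => K z.1 z.2)
    (fun a ha => by
      obtain ⟨z, -, rfl⟩ := Finset.mem_image.1 ha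
      exact hK _ _) ε hε
  refine ⟨⟨r, x, y, h1, h2⟩, hb _ fun i j => ?_⟩
  simp only [Fin1.D, Matrix.mul_diagonal, Matrix.diagonal_mul, Fin1.P]
  exact h3 _ (Finset.mem_image.2 ⟨(i, j), Finset.mem_univ _, rfl⟩)

/-- an idempotent matrix over `J` is equivalent to an idempotent matrix over `A` -/
theorem Approx.fin (hC : Approx C) {E : Matrix n n L} (hE : E * E = E)
    (hJ : Ent (C.J : Set L) E) : ∃ (ι : Type) (_ : Fintype ι) (p : Matrix ι ι A)
      (α : Matrix n ι L) (β : Matrix ι n L), p * p = p ∧ α * β = E ∧ β * α = p.map C.io := by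
  classical
  obtain ⟨F, h1, h2, h3⟩ := hC.exists_mem hJ (eventually_kapM hE (eventually_similar hE))
  obtain ⟨u, hu, -, -⟩ := h3 h2
  set E' := kapM (F.D n * E * F.D n)
  have a1 : F.D n * E' = E' := mul_kapM_of_mul (by simp only [← Matrix.mul_assoc, F.DD])
  have a2 : E' * F.D n = E' := kapM_mul_of_mul (by simp only [Matrix.mul_assoc, F.DD])
  obtain ⟨p, hp⟩ := exists_lift_io (C := C) (1 : Matrix (n × Fin F.r) (n × Fin F.r) A)
    (F.Y n * E' * F.X n) (1 : Matrix (n × Fin F.r) (n × Fin F.r) A)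
  have hp' : p.map C.io = F.Y n * E' * F.X n := by
    rw [hp, ← F.YX]
    calc _ = F.Y n * ((F.X n * F.Y n) * E' * (F.X n * F.Y n)) * F.X n := by
          simp only [Matrix.mul_assoc]
      _ = _ := by rw [F.XY, a1, a2]
  have b : (u : Matrix n n L) * E' * (↑u⁻¹ : Matrix n n L) = E := by
    rw [← hu, mul_assoc, Units.mul_inv, mul_one]
  refine ⟨n × Fin F.r, inferInstance, p, (u : Matrix n n L) * E' * F.X n,
    F.Y n * E' * (↑u⁻¹ : Matrix n n L), map_io_inj (C := C) ?_, ?_, ?_⟩
  · rw [map_io_mul, hp']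
    calc _ = F.Y n * (E' * (F.X n * F.Y n) * E') * F.X n := by simp only [Matrix.mul_assoc]
      _ = _ := by rw [F.XY, a2, h2]
  · calc _ = (u : Matrix n n L) * (E' * (F.X n * F.Y n) * E') * (↑u⁻¹ : Matrix n n L) := by
          simp only [Matrix.mul_assoc]
      _ = _ := by rw [F.XY, a2, h2, b]
  · calc _ = F.Y n * (E' * ((↑u⁻¹ : Matrix n n L) * (u : Matrix n n L)) * E') * F.X n := by
          simp only [Matrix.mul_assoc]
      _ = _ := by rw [Units.inv_mul, mul_one, h2, hp']

/-- a perturbation of an isomorphism between idempotents is an isomorphism -/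
theorem eventually_iso {H : Matrix n n L} {H' : Matrix k k L} {W : Matrix k n L}
    {V : Matrix n k L} (hH : H * H = H) (hH' : H' * H' = H') (h1 : V * W = H) (h2 : W * V = H') :
    ∀ᶠ W' : Matrix k n L in 𝓝 W, H' * W' = W' → W' * H = W' →
      ∃ S : Matrix n k L, S * W' = H ∧ W' * S = H' := by
  classical
  have c1 : Tendsto (fun W' : Matrix k n L => V * W' + (1 - H)) (𝓝 W) (𝓝 1) :=
    Continuous.tendsto' (by fun_prop) _ _ (by rw [h1]; abel)
  have c2 : Tendsto (fun W' : Matrix k n L => W' * V + (1 - H')) (𝓝 W) (𝓝 1) :=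
    Continuous.tendsto' (by fun_prop) _ _ (by rw [h2]; abel)
  filter_upwards [c1.eventually eventually_unit, c2.eventually eventually_unit]
  rintro W' ⟨u, hu, -⟩ ⟨u', hu', -⟩ a1 a2
  have b1 : (↑u⁻¹ : Matrix n n L) * V * W' = H := by
    have : V * W' = (u : Matrix n n L) * H := by
      rw [hu, add_mul, sub_mul, one_mul, hH, Matrix.mul_assoc, a2, sub_self, add_zero]
    rw [Matrix.mul_assoc, this, ← mul_assoc, Units.inv_mul, one_mul]
  have b2 : W' * (V * (↑u'⁻¹ : Matrix k k L)) = H' := by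
    have : W' * V = H' * (u' : Matrix k k L) := by
      rw [hu', mul_add, mul_sub, mul_one, hH', ← Matrix.mul_assoc, a1, sub_self, add_zero]
    rw [← Matrix.mul_assoc, this, mul_assoc, Units.mul_inv, mul_one]
  refine ⟨(↑u⁻¹ : Matrix n n L) * V * H', by rw [Matrix.mul_assoc, a1, b1], ?_⟩
  rw [← b2, ← Matrix.mul_assoc ((↑u⁻¹ : Matrix n n L) * V), b1, ← Matrix.mul_assoc, a2]

theorem Approx.zero_of_one [DecidableEq n] (hC : Approx C) {κ : K0 A}
    (h : IsIdx C (1 : Matrix n n L) (1 : Matrix n n L) 1 κ) : κ = 0 := by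
  classical
  obtain ⟨ι, μ, _, _, p, q, U, V, hp, hq, h1, h2, h3, rfl⟩ := h
  have hP := idem_map hp C.io
  have hQ := idem_map hq C.io
  set H : Matrix (n ⊕ μ) (n ⊕ μ) L := fromBlocks 1 0 0 (q.map C.io) with hH
  set H' : Matrix (n ⊕ ι) (n ⊕ ι) L := fromBlocks 1 0 0 (p.map C.io) with hH'
  have i1 : H * H = H := idem_fromBlocks (mul_one _) hQ
  have i2 : H' * H' = H' := idem_fromBlocks (mul_one _) hP
  let E0 : Matrix (n ⊕ ι) (n ⊕ μ) L := fromBlocks 1 0 0 0
  have e1 : H' * E0 * H = E0 := by simp [hH, hH', E0, fromBlocks_multiply]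
  have w1 : V * (H' * U * H) = H := by
    calc _ = (V * U) * (V * U) * H := by rw [← h2]; simp only [Matrix.mul_assoc]
      _ = _ := by rw [h1, i1, i1]
  have w2 : (H' * U * H) * V = H' := by
    calc _ = H' * ((U * V) * (U * V)) := by rw [← h1]; simp only [Matrix.mul_assoc]
      _ = _ := by rw [h2, i2, i2]
  have hK : Ent (C.J : Set L) (H' * U * H - E0) := by
    rw [← fromBlocks_toBlocks U]
    simp only [hH, hH', E0, fromBlocks_multiply, Matrix.one_mul, Matrix.zero_mul, add_zero,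
      zero_add, Matrix.mul_one, Matrix.mul_zero]
    rintro (i | i) (j | j)
    · exact h3 i j
    · simpa using entJ_left U.toBlocks₁₂ (entJ_map (C := C) q) i j
    · simpa using entJ_right U.toBlocks₂₁ (entJ_map (C := C) p) i j
    · simpa using entJ_left (p.map C.io * U.toBlocks₂₂) (entJ_map (C := C) q) i j
  have c : Tendsto (fun Z : Matrix (n ⊕ ι) (n ⊕ μ) L => E0 + H' * Z * H) (𝓝 (H' * U * H - E0))
      (𝓝 (H' * U * H)) := Continuous.tendsto' (by fun_prop) _ _ (by
        rw [Matrix.mul_sub, Matrix.sub_mul, e1]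
        simp only [← Matrix.mul_assoc, i2]
        rw [Matrix.mul_assoc _ H H, i1]; abel)
  obtain ⟨F, hF⟩ := hC.exists_mem hK (c.eventually (eventually_iso i1 i2 w1 w2))
  set Z := F.D (n ⊕ ι) * (H' * U * H - E0) * F.D (n ⊕ μ) with hZ
  have z1 : F.D (n ⊕ ι) * Z = Z := by simp only [hZ, ← Matrix.mul_assoc, F.DD]
  have z2 : Z * F.D (n ⊕ μ) = Z := by simp only [hZ, Matrix.mul_assoc, F.DD]
  clear_value Z
  set W := E0 + H' * Z * H with hW
  have e2 : H' * E0 = E0 := by simp [hH', E0, fromBlocks_multiply]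
  have e3 : E0 * H = E0 := by simp [hH, E0, fromBlocks_multiply]
  have a1 : H' * W = W := by
    rw [hW, Matrix.mul_add, e2]; simp only [← Matrix.mul_assoc, i2]
  have a2 : W * H = W := by
    rw [hW, Matrix.add_mul, e3]; simp only [Matrix.mul_assoc, i1]
  obtain ⟨S, s1, s2⟩ := hF a1 a2
  set G : Matrix (n ⊕ μ) (n ⊕ μ) L := fromBlocks (F.D n) 0 0 (q.map C.io) with hG
  set G' : Matrix (n ⊕ ι) (n ⊕ ι) L := fromBlocks (F.D n) 0 0 (p.map C.io) with hG'
  have d1 : ∀ (ι : Type) [Fintype ι] [DecidableEq ι], F.D (n ⊕ ι) =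
      fromBlocks (F.D n) 0 0 (F.D ι) := fun ι _ _ => by
    simp only [Fin1.D, fromBlocks_diagonal]
    congr 1
    ext (i | i) <;> rfl
  have g1 : G * G = G := idem_fromBlocks F.DD hQ
  have g2 : G' * G' = G' := idem_fromBlocks F.DD hP
  have g3 : G' * (H' * F.D (n ⊕ ι)) = H' * F.D (n ⊕ ι) := by
    simp [d1, hG', hH', fromBlocks_multiply, F.DD, ← Matrix.mul_assoc, hP]
  have g4 : F.D (n ⊕ μ) * H * G = F.D (n ⊕ μ) * H := by
    simp [d1, hG, hH, fromBlocks_multiply, F.DD, Matrix.mul_assoc, hQ]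
  have g5 : G' * E0 = E0 * G := by simp [hG, hG', E0, fromBlocks_multiply]
  have g6 : G' * W = W * G := by
    rw [hW, Matrix.mul_add, Matrix.add_mul, g5]
    congr 1
    calc G' * (H' * Z * H) = G' * (H' * F.D (n ⊕ ι)) * Z * H := by
          conv_lhs => rw [← z1]
          simp only [Matrix.mul_assoc]
      _ = H' * Z * H := by rw [g3, Matrix.mul_assoc H', z1]
      _ = H' * Z * (F.D (n ⊕ μ) * H * G) := by
          rw [g4, ← Matrix.mul_assoc (H' * Z), Matrix.mul_assoc H' Z (F.D _), z2]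
      _ = H' * (Z * F.D (n ⊕ μ)) * H * G := by simp only [Matrix.mul_assoc]
      _ = _ := by rw [z2]
  have g7 : H * G = G := by simp [hG, hH, fromBlocks_multiply, hQ]
  have g8 : H' * G' = G' := by simp [hG', hH', fromBlocks_multiply, hP]
  have m1 : (G * S * G') * (G' * W) = G := by
    calc _ = G * S * (G' * G' * W) := by simp only [Matrix.mul_assoc]
      _ = G * (S * W) * G := by rw [g2, g6]; simp only [Matrix.mul_assoc]
      _ = _ := by rw [s1, Matrix.mul_assoc, g7, g1]
  have m2 : (G' * W) * (G * S * G') = G' := by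
    calc _ = G' * (W * G) * S * G' := by simp only [Matrix.mul_assoc]
      _ = G' * G' * (W * S) * G' := by rw [← g6]; simp only [Matrix.mul_assoc]
      _ = _ := by rw [s2, g2, Matrix.mul_assoc, g8, g2]
  have xy : ∀ (ι : Type) [Fintype ι] (p : Matrix ι ι A), p * p = p →
      fromBlocks (F.X n) 0 0 (p.map C.io) * fromBlocks (F.Y n) 0 0 (p.map C.io) =
        fromBlocks (F.D n) 0 0 (p.map C.io) ∧
      fromBlocks (F.Y n) 0 0 (p.map C.io) * fromBlocks (F.X n) 0 0 (p.map C.io) =
        (fromBlocks (1 : Matrix (n × Fin F.r) (n × Fin F.r) A) 0 0 p).map C.io :=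
    fun ι _ p hp => by
      simp [fromBlocks_multiply, F.XY, F.YX, idem_map hp C.io, fromBlocks_map]
  obtain ⟨x1, x2⟩ := xy ι p hp
  obtain ⟨y1, y2⟩ := xy μ q hq
  have k1 := idem_fromBlocks (mul_one (1 : Matrix (n × Fin F.r) (n × Fin F.r) A)) hp
  have k2 := idem_fromBlocks (mul_one (1 : Matrix (n × Fin F.r) (n × Fin F.r) A)) hq
  have := cls_eq_of_mvn (C := C) k1 k2
    (fromBlocks (F.Y n) 0 0 (p.map C.io) * (G' * W) * fromBlocks (F.X n) 0 0 (q.map C.io))
    (fromBlocks (F.Y n) 0 0 (q.map C.io) * (G * S * G') * fromBlocks (F.X n) 0 0 (p.map C.io))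
    (by
      calc _ = fromBlocks (F.Y n) 0 0 (p.map C.io) * ((G' * W) *
            ((fromBlocks (F.X n) 0 0 (q.map C.io) * fromBlocks (F.Y n) 0 0 (q.map C.io)) * G * S *
              G')) * fromBlocks (F.X n) 0 0 (p.map C.io) := by simp only [Matrix.mul_assoc]
        _ = _ := by
          rw [y1, g1, m2, hG', ← x1, ← Matrix.mul_assoc, x2, Matrix.mul_assoc, x2,
            idem_map k1 C.io])
    (by
      calc _ = fromBlocks (F.Y n) 0 0 (q.map C.io) * ((G * S * G') *
            ((fromBlocks (F.X n) 0 0 (p.map C.io) * fromBlocks (F.Y n) 0 0 (p.map C.io)) * G' *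
              W)) * fromBlocks (F.X n) 0 0 (q.map C.io) := by simp only [Matrix.mul_assoc]
        _ = _ := by
          rw [x1, g2, m1, hG, ← y1, ← Matrix.mul_assoc, y2, Matrix.mul_assoc, y2,
            idem_map k2 C.io])
  rw [cls_fromBlocks (mul_one _) hp, cls_fromBlocks (mul_one _) hq] at this
  rw [add_left_cancel this, sub_self]

variable {e : Matrix n n L} {f : Matrix n' n' L} {T : Matrix n' n L} {κ κ' : K0 A}

theorem Approx.zero_of_id (hC : Approx C) (hf : f * f = f) (h : IsIdx C f f f κ) : κ = 0 := by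
  classical
  have h1 := idem_one_sub hf
  have a : f * (1 - f) = 0 := by rw [mul_sub, mul_one, hf, sub_self]
  have b : (1 - f) * f = 0 := by rw [sub_mul, one_mul, hf, sub_self]
  have i := idem_fromBlocks hf h1
  have h2 := h.sum (IsIdx.of_iso (C := C) (1 - f) h1 h1)
  have c1 : fromCols f (1 - f) * fromRows f (1 - f) = 1 := by
    rw [fromCols_mul_fromRows, hf, h1]; abel
  have c2 : fromRows f (1 - f) * fromCols f (1 - f) = fromBlocks f 0 0 (1 - f) := by
    rw [fromRows_mul_fromCols, hf, h1, a, b]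
  have h3 := ((IsIdx.of_iso (C := C) _ c1 c2).comp h2 (mul_one _) i i).comp
    (IsIdx.of_iso (C := C) _ c2 c1) (mul_one _) i (mul_one _)
  rw [i, ← c2] at h3
  have c3 : fromCols f (1 - f) * (fromRows f (1 - f) * fromCols f (1 - f)) *
      (fromRows f (1 - f) * fromCols f (1 - f) * fromRows f (1 - f)) = 1 := by
    calc _ = (fromCols f (1 - f) * fromRows f (1 - f)) * (fromCols f (1 - f) * fromRows f (1 - f))
          * (fromCols f (1 - f) * fromRows f (1 - f)) := by simp only [Matrix.mul_assoc]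
      _ = _ := by rw [c1, mul_one, mul_one]
  rw [c3] at h3
  simpa using hC.zero_of_one h3

/-- uniqueness of the index -/
theorem Approx.uniq (hC : Approx C) (he : e * e = e) (hf : f * f = f) (h : IsIdx C e f T κ)
    (h' : IsIdx C e f T κ') : κ = κ' := by
  obtain ⟨S, h1, h2, -⟩ := h.symm he hf
  have := hC.zero_of_id hf ((h1.comp h' hf he hf).congr h2)
  rwa [neg_add_eq_zero] at this

/-- existence of the index -/
theorem Approx.exists_idx (hC : Approx C) (he : e * e = e) (hf : f * f = f) (hT : T * e = T)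
    (hT' : f * T = T) (h : Fred C e f T) : ∃ κ, IsIdx C e f T κ := by
  classical
  obtain ⟨S, h1, h2⟩ := h
  have hK : Ent (C.J : Set L) (f - T * S * f) :=
    entJ_of_eq (entJ_neg (entJ_right f h2)) (by rw [Matrix.sub_mul, hf]; abel)
  have c : Tendsto (fun Z : Matrix n' n' L => T * S * f + f * Z * f + (1 - f)) (𝓝 (f - T * S * f))
      (𝓝 1) := Continuous.tendsto' (by fun_prop) _ _ (by
        rw [mul_sub, sub_mul, hf, hf, ← Matrix.mul_assoc f, ← Matrix.mul_assoc f, hT',
          Matrix.mul_assoc _ f f, hf]; abel)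
  obtain ⟨F, u, hu, -⟩ := hC.exists_mem hK (c.eventually eventually_unit)
  set Z := (f - T * S * f) * F.D n' with hZ
  rw [Matrix.mul_assoc (F.D n'), ← hZ] at hu
  clear_value Z
  let R : Matrix n' (n ⊕ n' × Fin F.r) L := fromCols T (f * F.X n')
  let Q0 : Matrix (n ⊕ n' × Fin F.r) n' L := fromRows (e * S * f) (F.Y n' * Z * f)
  have r0 : R * Q0 = f * (u : Matrix n' n' L) := by
    rw [hu, mul_add, mul_add, mul_sub, mul_one, hf, sub_self, add_zero, fromCols_mul_fromRows]
    simp only [← Matrix.mul_assoc, hT, hT', hf]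
    rw [Matrix.mul_assoc f (F.X n'), F.XY]
  let Q := Q0 * (↑u⁻¹ : Matrix n' n' L)
  have r1 : R * Q = f := by
    rw [← Matrix.mul_assoc, r0, mul_assoc, Units.mul_inv, mul_one]
  let H : Matrix (n ⊕ n' × Fin F.r) (n ⊕ n' × Fin F.r) L :=
    fromBlocks e 0 0 ((1 : Matrix (n' × Fin F.r) (n' × Fin F.r) A).map C.io)
  have i1 : H * H = H := idem_fromBlocks he (idem_map (mul_one _) C.io)
  have r2 : R * H = R := by
    simp only [R, H, fromCols_mul_fromBlocks, Matrix.mul_zero, add_zero, zero_add, hT,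
      Matrix.mul_assoc, F.X_one]
  have r3 : f * R = R := by
    simp only [R, mul_fromCols, hT', ← Matrix.mul_assoc, hf]
  have r4 : R * (H * Q) = f := by rw [← Matrix.mul_assoc, r2, r1]
  have r5 : H * (H * Q * R) = H * Q * R := by simp only [← Matrix.mul_assoc, i1]
  have r6 : H * Q * R * H = H * Q * R := by rw [Matrix.mul_assoc _ R, r2]
  have r7 : H * Q * R * (H * Q * R) = H * Q * R := by
    rw [Matrix.mul_assoc _ R, ← Matrix.mul_assoc R, r4, r3]
  have i2 : (H - H * Q * R) * (H - H * Q * R) = H - H * Q * R := by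
    rw [mul_sub, sub_mul, sub_mul, i1, r5, r6, r7]; abel
  have uJ : Ent (C.J : Set L) ((u : Matrix n' n' L) - 1) := by
    rw [hu]
    refine entJ_of_eq (entJ_add (entJ_neg hK) (entJ_right f (entJ_left f
      (entJ_right Z (F.ent_D (n := n')))))) ?_
    abel
  have uJ' : Ent (C.J : Set L) ((↑u⁻¹ : Matrix n' n' L) - 1) :=
    entJ_of_eq (entJ_neg (entJ_right (↑u⁻¹ : Matrix n' n' L) uJ))
      (by rw [sub_mul, Units.mul_inv, one_mul]; abel)
  have kJ : Ent (C.J : Set L) (H - H * Q * R) := by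
    have b1 : Ent (C.J : Set L) (H - H * Q0 * R) := by
      simp only [H, Q0, R, fromBlocks_mul_fromRows, fromRows_mul_fromCols, Matrix.zero_mul,
        add_zero, zero_add]
      rintro (i | i) (j | j)
      · have := entJ_neg (entJ_left e h1) i j
        rw [Matrix.mul_sub, he] at this
        simpa [← Matrix.mul_assoc, he, Matrix.mul_assoc _ f T, hT'] using this
      · simpa using entJ_left _ (entJ_left f F.ent_X) i j
      · simpa using entJ_right T (entJ_right _ (entJ_map (C := C) _)) i j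
      · exact entJ_sub (entJ_map (C := C) _) (entJ_left _ (entJ_left f F.ent_X)) i j
    refine entJ_of_eq (entJ_sub b1 (entJ_right R (entJ_left (H * Q0) uJ'))) ?_
    simp only [Q, Matrix.mul_sub, Matrix.sub_mul, Matrix.mul_one, Matrix.mul_assoc]
    abel
  obtain ⟨ι, _, p, α, β, hp, a1, a2⟩ := hC.fin i2 kJ
  set E := H - H * Q * R with hE
  have b1 : R * E = 0 := by
    rw [hE, Matrix.mul_sub, r2, ← Matrix.mul_assoc, r4, r3, sub_self]
  have b2 : E * (H * Q) = 0 := by
    rw [hE, Matrix.sub_mul, ← Matrix.mul_assoc H H, i1, Matrix.mul_assoc _ R, r4, ← r4,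
      ← Matrix.mul_assoc (H * Q), Matrix.mul_assoc (H * Q) R, r4]
    have : H * Q * f = H * Q := by
      have t : f * (u : Matrix n' n' L) = (u : Matrix n' n' L) * f := by
        rw [hu]
        simp only [mul_add, add_mul, mul_sub, sub_mul, mul_one, one_mul, hf, ← Matrix.mul_assoc,
          hT', Matrix.mul_assoc _ f f]
      have t' : (↑u⁻¹ : Matrix n' n' L) * f = f * (↑u⁻¹ : Matrix n' n' L) := by
        rw [Units.inv_mul_eq_iff_eq_mul, ← mul_assoc, ← t, mul_assoc, Units.mul_inv, mul_one]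
      have t'' : Q0 * f = Q0 := by simp only [Q0, fromRows_mul, Matrix.mul_assoc, hf]
      simp only [Q, Matrix.mul_assoc, t']
      rw [← Matrix.mul_assoc Q0, t'']
    rw [this, sub_self]
  have hP := idem_map hp C.io
  refine ⟨cls p - cls (1 : Matrix (n' × Fin F.r) (n' × Fin F.r) A), ι, n' × Fin F.r,
    inferInstance, inferInstance, p, 1, fromRows R (β * E), fromCols (H * Q) (E * α), hp,
    mul_one _, ?_, ?_, ?_, rfl⟩
  · rw [fromCols_mul_fromRows]
    have : E * α * (β * E) = E := by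
      rw [Matrix.mul_assoc, ← Matrix.mul_assoc α, a1, i2, i2]
    rw [this, hE]; abel
  · rw [fromRows_mul_fromCols, r4, ← Matrix.mul_assoc R, b1, Matrix.mul_assoc β, b2,
      Matrix.zero_mul, Matrix.mul_zero]
    congr 1
    calc β * E * (E * α) = β * (E * E) * α := by simp only [Matrix.mul_assoc]
      _ = (β * α) * (β * α) := by rw [i2, ← a1]; simp only [Matrix.mul_assoc]
      _ = _ := by rw [a2, hP]
  · intro i j
    simp [R, toBlocks₁₁]

end Pool.Agent.Lib.MFI
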